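import Pool.Agent.Lib.MP_c7af3c_ag.T2.H26.Asm2
import Pool.Agent.Lib.MP_c7af3c_ag.EDGE.C2.H59.Ld
import Pool.Agent.Lib.MP_c7af3c_ag.T2.H95.Close
import Pool.Agent.Lib.MP_c7af3c_ag.T2.H19.Hull
import Pool.Agent.Lib.MP_c7af3c_ag.T2.H19.Vanb
import Pool.Agent.Lib.MP_c7af3c_ag.T2.H19.Wordb
import Pool.Agent.Lib.MP_c7af3c_ag.T2.H18.W2
import Pool.Agent.Lib.MP_c7af3c_ag.T2.H52.Annb
import Pool.Agent.Lib.MP_c7af3c_ag.T2.H52.Hl5
import Pool.Agent.Lib.MP_c7af3c_ag.T2.H52.Ultra2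
import Pool.Agent.Lib.MP_c7af3c_ag.T2.H12.Reg
import Pool.Agent.Lib.MP_c7af3c_ag.T2.H2.Exta
import Pool.Agent.Lib.MP_c7af3c_ag.T2.H16.Corea
import Pool.Agent.Lib.MP_c7af3c_ag.T2.H9.Enda
import Pool.Agent.Lib.MP_c7af3c_ag.T2.H49.Asma
import Pool.Agent.Lib.MP_c7af3c_ag.T2.H65.LineFin
import Pool.Agent.Lib.MP_c7af3c_ag.T2.H79.Rk1
import Pool.Agent.Lib.MP_c7af3c_ag.T2.H76.AtkRow
import Pool.Agent.Lib.MP_c7af3c_ag.T2.H60.Seam
import Pool.Agent.Lib.MP_c7af3c_ag.T2.H26.Taub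
import Pool.Agent.Lib.MP_c7af3c_ag.T2.H59.Loc
import Pool.Agent.Lib.MP_c7af3c_ag.T2.H6.Beta
import Pool.Agent.Lib.MP_c7af3c_ag.T2.H78.Hess

/-!
# MP_c7af3c_ag, project T2: the height inequality for sextic threefolds, from the plane type
-/

set_option autoImplicit false

namespace Pool.Agent.T2.H26

open MvPolynomial Pool.Agent.Gen Pool.Agent.Sharp Pool.Agent.Edge Pool.Agent.T2

theorem dex : C2.DexStatement := by
  intro Ω _ _ n c d D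
  obtain ⟨D', h1, h2, -⟩ := H95.close Ω n c d D
  exact ⟨D', h1, h2⟩

theorem hbe4 (plane : PlaneTypeStatement) (j0 : Fin (4 + 1)) : HBE 4 1 (fun _ => 6) j0 :=
  asm2 C2.H59.ld dex H59.loc taub H19.hull H18.w2 H19.vanb H19.wordb H52.annb H12.reg H2.exta
    H16.corea H9.enda H49.asma H65.lineSt H79.rk1 H76.atk H78.hess H6.beta H60.seam plane
    H52.ultra2 H52.hl5s j0

end Pool.Agent.T2.H26
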