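import Pool.Agent.Lib.MP_c7af3c_ag.T2.Iface

/-!
# MP_c7af3c_ag, project T2: the case tree and the height inequality (row ASM2)
-/

set_option autoImplicit false

namespace Pool.Agent.T2.H26

open MvPolynomial Pool.Agent.Gen Pool.Agent.Sharp Pool.Agent.Edge Pool.Agent.T2

/-- the case tree: the situation over the ultraproduct is impossible -/
theorem t2 (hreg : ∀ (Ω : Type) [Field Ω] [CharZero Ω] (k : Subfield Ω)
      (Γ : Type) [LinearOrderedCommGroupWithZero Γ] (S : Sizes Ω k Γ) (D : D6 Ω)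
      (x : Fin (4 + 1) → Ω) (j0 : Fin (4 + 1)), Sit S D x j0 →
      ∀ A : MvPolynomial (Fin (4 + 1)) Ω, Fk k 5 A → Module.finrank Ω (EA D x j0 A) ≤ 3)
    (hw : ∀ (Ω : Type) [Field Ω] [CharZero Ω] (k : Subfield Ω)
      (Γ : Type) [LinearOrderedCommGroupWithZero Γ] (S : Sizes Ω k Γ) (D : D6 Ω)
      (x : Fin (4 + 1) → Ω) (j0 : Fin (4 + 1)), Sit S D x j0 →
      Module.finrank Ω (Wsp D x) ≤ 2)
    (line : LineStatement) (rk1 : Rk1Statement) (atk : AtkStatement)
    (beta : ∀ (Ω : Type) [Field Ω] [CharZero Ω] (k : Subfield Ω)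
      (Γ : Type) [LinearOrderedCommGroupWithZero Γ] (S : Sizes Ω k Γ) (D : D6 Ω)
      (x : Fin (4 + 1) → Ω) (j0 : Fin (4 + 1)), Sit S D x j0 → W0 D x →
      (∀ y, LinearIndependent Ω ![x, y] → 3 ≤ Module.finrank Ω (Lines.E1 D x y)) →
      ∀ (t : Fin (2 + 1) → Fin (4 + 1)) (P : Fin (2 + 1) → Fin (4 + 1) → Ω), Cht x j0 t P →
      (∀ A : MvPolynomial (Fin (4 + 1)) Ω, A.IsHomogeneous 5 → ∀ f,
        D.V x 0 (A * lam t P f) = 0) →
      ∀ A : MvPolynomial (Fin (4 + 1)) Ω, A.IsHomogeneous 5 → ∀ f i,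
        D.V (P i) 0 (A * lam t P f) = 0)
    (seam : SeamStatement) (plane : PlaneTypeStatement)
    {Ω : Type} [Field Ω] [CharZero Ω] {k : Subfield Ω} {Γ : Type}
    [LinearOrderedCommGroupWithZero Γ] {S : Sizes Ω k Γ} {D : D6 Ω}
    {x : Fin (4 + 1) → Ω} {j0 : Fin (4 + 1)} (h : Sit S D x j0) : False := by
  have h2 := hw Ω k Γ S D x j0 h
  have hA := hreg Ω k Γ S D x j0 h
  have hl := line Ω k Γ S D x j0 h h2
  have hnl : ¬ ∃ y, LinearIndependent Ω ![x, y] ∧ Module.finrank Ω (Lines.E1 D x y) ≤ 2 := by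
    rintro ⟨y, hy, hy2⟩
    have := hl y hy
    omega
  by_cases h3 : Module.finrank Ω (Wsp D x) = 2
  · exact hnl (rk1 Ω k D x j0 h.hj0 (h.h0 0) h3 hA)
  · have hw0 : W0 D x := by
      have hx0 : x ≠ 0 := by
        intro h0
        have := congrFun h0 j0
        rw [h.hj0] at this
        exact one_ne_zero this
      have hle : Submodule.span Ω {x} ≤ Wsp D x :=
        Submodule.span_mono Set.subset_union_left
      have heq : Submodule.span Ω {x} = Wsp D x := by
        refine Submodule.eq_of_le_of_finrank_le hle ?_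
        rw [finrank_span_singleton hx0]
        omega
      intro p q
      rw [heq]
      exact Submodule.subset_span (Or.inr ⟨p, q, rfl⟩)
    rcases atk Ω k D x j0 h.hj0 (h.h0 0) hw0 hA with h4 | ⟨t, P, hch, hv⟩
    · exact hnl h4
    · have h5 := beta Ω k Γ S D x j0 h hw0 hl t P hch hv
      have h6 := seam Ω k Γ S D x j0 h hw0 hl t P hch hv h5
      have h7 : Sit S D x (t 0) := by
        rw [hch.t0]
        exact h
      exact plane Ω k Γ S D x t P h7 h6

theorem asm2 : Asm2Statement := by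
  intro ld dex loc taub hull w2 vanb wordb annb reg exta corea enda asma line rk1 atk hess beta
    seam plane ultra2 hl5 j0
  by_contra hne
  obtain ⟨Ω, _, _, k, Γ, _, S, D, x, hsit⟩ := ultra2 4 1 (fun _ => 6) j0 hl5 hne
  refine t2 (asma ld dex loc taub hull w2 vanb wordb annb reg exta corea enda)
    (w2 loc taub hull) line rk1 atk (beta loc hess) seam plane hsit

end Pool.Agent.T2.H26
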