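import Pool.Agent.Lib.MP_c7af3c_ag.T2.Base

/-!
# MP_c7af3c_ag, project T2: the kernel of `F'(x)` is spanned by `x`, the `W(p,q)`, the `V(A l)`
-/

set_option autoImplicit false

namespace Pool.Agent.T2.H26

open MvPolynomial Pool.Agent.Gen Pool.Agent.Sharp Pool.Agent.Edge Pool.Agent.T2

/-- the kernel of `F'(x)` -/
noncomputable def KerF {L : Type} [Field L] {n c : ℕ} {d : Fin c → ℕ} (D : DSys L n c d)
    (x : Fin (n + 1) → L) : Submodule L (Fin (n + 1) → L) where
  carrier := {v | ∀ m, ∑ p, eval x (pderiv p (D.F m)) * v p = 0}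
  add_mem' := by
    intro u v hu hv m
    have h : ∑ p, eval x (pderiv p (D.F m)) * (u + v) p =
        ∑ p, eval x (pderiv p (D.F m)) * u p + ∑ p, eval x (pderiv p (D.F m)) * v p := by
      rw [← Finset.sum_add_distrib]
      exact Finset.sum_congr rfl fun p _ => by rw [Pi.add_apply, mul_add]
    rw [h, hu m, hv m, add_zero]
  zero_mem' := fun m => by simp
  smul_mem' := by
    intro a v hv m
    have h : ∑ p, eval x (pderiv p (D.F m)) * (a • v) p =
        a * ∑ p, eval x (pderiv p (D.F m)) * v p := by
      rw [Finset.mul_sum]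
      exact Finset.sum_congr rfl fun p _ => by rw [Pi.smul_apply, smul_eq_mul]; ring
    rw [h, hv m, mul_zero]

section dec

variable {L : Type} [Field L] {n : ℕ} (x : Fin (n + 1) → L) {j0 : Fin (n + 1)}

/-- the decomposition of a form along a point -/
def Dec (j0 : Fin (n + 1)) (e : ℕ) (G : MvPolynomial (Fin (n + 1)) L) : Prop :=
  ∃ A : Fin (n + 1) → MvPolynomial (Fin (n + 1)) L,
    (∀ i I, coeff I (A i) ≠ 0 → I.degree + 1 = e) ∧
    G = ∑ i, A i * lf x j0 i + C (eval x G) * X j0 ^ e

theorem Dec.add {e : ℕ} {G H : MvPolynomial (Fin (n + 1)) L} (hG : Dec x j0 e G)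
    (hH : Dec x j0 e H) : Dec x j0 e (G + H) := by
  obtain ⟨A, hA, hA'⟩ := hG
  obtain ⟨B, hB, hB'⟩ := hH
  refine ⟨A + B, fun i I hI => ?_, ?_⟩
  · rw [Pi.add_apply, coeff_add] at hI
    by_cases h : coeff I (A i) = 0
    · rw [h, zero_add] at hI
      exact hB i I hI
    · exact hA i I h
  · have h1 : ∑ i, (A + B) i * lf x j0 i = ∑ i, A i * lf x j0 i + ∑ i, B i * lf x j0 i := by
      rw [← Finset.sum_add_distrib]
      exact Finset.sum_congr rfl fun i _ => by rw [Pi.add_apply, add_mul]
    rw [h1, map_add, map_add, add_mul]
    calc G + H = (∑ i, A i * lf x j0 i + C (eval x G) * X j0 ^ e) +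
          (∑ i, B i * lf x j0 i + C (eval x H) * X j0 ^ e) := by rw [← hA', ← hB']
      _ = _ := by ring

theorem Dec.smul {e : ℕ} {G : MvPolynomial (Fin (n + 1)) L} (a : L) (hG : Dec x j0 e G) :
    Dec x j0 e (a • G) := by
  obtain ⟨A, hA, hA'⟩ := hG
  refine ⟨a • A, fun i I hI => hA i I fun h => hI ?_, ?_⟩
  · rw [Pi.smul_apply, coeff_smul, h, smul_zero]
  · have h1 : ∑ i, (a • A) i * lf x j0 i = a • ∑ i, A i * lf x j0 i := by
      rw [Finset.smul_sum]
      exact Finset.sum_congr rfl fun i _ => by rw [Pi.smul_apply, smul_mul_assoc]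
    rw [h1, smul_eval, map_mul, mul_assoc, ← smul_eq_C_mul _ a, ← smul_add, ← hA']

theorem Dec.zero {e : ℕ} : Dec x j0 e (0 : MvPolynomial (Fin (n + 1)) L) :=
  ⟨0, fun i I h => absurd (by simp) h, by simp⟩

theorem dec_monomial (e : ℕ) : ∀ I : Fin (n + 1) →₀ ℕ, I.degree = e →
    Dec x j0 e (monomial I (1 : L)) := by
  classical
  induction e with
  | zero =>
    intro I hI
    rw [Finsupp.degree_eq_zero_iff] at hI
    subst hI
    exact ⟨0, fun i I h => absurd (by simp) h, by simp⟩
  | succ e ih =>
    intro I hI
    have hne : I ≠ 0 := by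
      rintro rfl
      simp at hI
    obtain ⟨i, hi⟩ := Finsupp.support_nonempty_iff.2 hne
    have hle : Finsupp.single i 1 ≤ I := by
      rw [Finsupp.single_le_iff]
      exact Nat.one_le_iff_ne_zero.2 (Finsupp.mem_support_iff.1 hi)
    obtain ⟨J, rfl⟩ := exists_add_of_le hle
    have hJ : J.degree = e := by
      rw [map_add, Finsupp.degree_single] at hI
      omega
    obtain ⟨A, hA, hA'⟩ := ih J hJ
    have hm : (monomial (Finsupp.single i 1 + J) (1 : L)) = X i * monomial J 1 := by
      rw [X, monomial_mul, one_mul]
    refine ⟨fun j => C (x i) * X j0 * A j + if j = i then monomial J 1 else 0, ?_, ?_⟩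
    · intro j I' hI'
      rw [coeff_add] at hI'
      by_cases h1 : coeff I' (if j = i then monomial J (1 : L) else 0) = 0
      · rw [h1, add_zero, mul_assoc, coeff_C_mul] at hI'
        have h2 : coeff I' (X j0 * A j) ≠ 0 := fun h => hI' (by rw [h, mul_zero])
        rw [coeff_X_mul'] at h2
        split_ifs at h2 with h3
        · have h4 := hA j _ h2
          have h5 : Finsupp.single j0 1 ≤ I' := by
            rw [Finsupp.single_le_iff]
            exact Nat.one_le_iff_ne_zero.2 (Finsupp.mem_support_iff.1 h3)
          obtain ⟨K, rfl⟩ := exists_add_of_le h5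
          rw [add_tsub_cancel_left] at h4
          rw [map_add, Finsupp.degree_single]
          omega
        · exact absurd rfl h2
      · split_ifs at h1 with h2
        · rw [coeff_monomial] at h1
          split_ifs at h1 with h3
          · rw [← h3, hJ]
          · exact absurd rfl h1
        · exact absurd (by simp) h1
    · have h1 : ∑ j, (C (x i) * X j0 * A j + if j = i then monomial J (1 : L) else 0) *
          lf x j0 j = C (x i) * X j0 * ∑ j, A j * lf x j0 j + monomial J 1 * lf x j0 i := by
        have h2 : ∀ j, (C (x i) * X j0 * A j + if j = i then monomial J (1 : L) else 0) *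
            lf x j0 j = C (x i) * X j0 * (A j * lf x j0 j) +
              if j = i then monomial J (1 : L) * lf x j0 i else 0 := by
          intro j
          by_cases h : j = i
          · subst h; rw [if_pos rfl, if_pos rfl]; ring
          · rw [if_neg h, if_neg h]; ring
        rw [Finset.sum_congr rfl fun j _ => h2 j, Finset.sum_add_distrib, ← Finset.mul_sum,
          Finset.sum_ite_eq' Finset.univ i, if_pos (Finset.mem_univ i)]
      rw [h1, hm, map_mul, eval_X, map_mul]
      have h3 : lf x j0 i = X i - C (x i) * X j0 := rfl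
      have h4 : X i * monomial J (1 : L) = C (x i) * X j0 * monomial J 1 +
          monomial J 1 * lf x j0 i := by
        rw [h3]; ring
      rw [h4]
      have h5 : C (x i) * X j0 * monomial J (1 : L) = C (x i) * X j0 *
          (∑ j, A j * lf x j0 j + C (eval x (monomial J (1 : L))) * X j0 ^ e) := by
        rw [← hA']
      rw [h5]
      ring

theorem dec (e : ℕ) {G : MvPolynomial (Fin (n + 1)) L} (hG : G.IsHomogeneous e) :
    Dec x j0 e G := by
  classical
  rw [G.as_sum]
  have h : ∀ s : Finset (Fin (n + 1) →₀ ℕ), s ⊆ G.support →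
      Dec x j0 e (∑ I ∈ s, monomial I (coeff I G)) := by
    intro s
    induction s using Finset.induction_on with
    | empty => intro _; rw [Finset.sum_empty]; exact Dec.zero x
    | insert a s ha ih =>
      intro hs
      rw [Finset.sum_insert ha]
      refine Dec.add x ?_ (ih fun b hb => hs (Finset.mem_insert_of_mem hb))
      have h1 : (monomial a (coeff a G) : MvPolynomial (Fin (n + 1)) L) =
          coeff a G • monomial a 1 := by
        rw [smul_monomial, smul_eq_mul, mul_one]
      rw [h1]
      refine Dec.smul x _ (dec_monomial x e a ?_)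
      have h2 := hG (mem_support_iff.1 (hs (Finset.mem_insert_self a s)))
      rw [← h2, Finsupp.degree_eq_weight_one]
      rfl
  exact h G.support subset_rfl

end dec

theorem ker {L : Type} [Field L] {n c : ℕ} {d : Fin c → ℕ} (D : DSys L n c d)
    (x : Fin (n + 1) → L) {j0 : Fin (n + 1)} (hj0 : x j0 = 1) (h0 : ∀ m, eval x (D.F m) = 0) :
    Module.finrank L (KerF D x) + c = n + 1 ∧
    (∀ G : TP L n c, (∀ m, (G m).IsHomogeneous (d m)) → (∀ m, eval x (G m) = 0) →
      VT D x G ∈ KerF D x) ∧
    Submodule.span L ({x} ∪ {u | ∃ p q, u = WT D x p q} ∪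
      {u | ∃ (A : TP L n c) (i : Fin (n + 1)), Adm d A ∧ u = VT D x (mulT A (lf x j0 i))}) =
      KerF D x := by
  classical
  have hV : ∀ G : TP L n c, (∀ m, (G m).IsHomogeneous (d m)) → (∀ m, eval x (G m) = 0) →
      VT D x G ∈ KerF D x := by
    intro G hG hGx m
    rw [grad_VT D x h0 G hG m, hGx m, neg_zero]
  refine ⟨?_, hV, ?_⟩
  · -- dimension
    let φ : (Fin (n + 1) → L) →ₗ[L] (Fin c → L) :=
      { toFun := fun v m => ∑ p, eval x (pderiv p (D.F m)) * v p
        map_add' := by
          intro u v
          funext m
          rw [Pi.add_apply, ← Finset.sum_add_distrib]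
          exact Finset.sum_congr rfl fun p _ => by rw [Pi.add_apply, mul_add]
        map_smul' := by
          intro a v
          funext m
          rw [RingHom.id_apply, Pi.smul_apply, smul_eq_mul, Finset.mul_sum]
          exact Finset.sum_congr rfl fun p _ => by rw [Pi.smul_apply, smul_eq_mul]; ring }
    have hk : LinearMap.ker φ = KerF D x := by
      ext v
      rw [LinearMap.mem_ker]
      constructor
      · intro h m
        exact congrFun h m
      · intro h
        funext m
        exact h m
    have hr : LinearMap.range φ = ⊤ := by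
      rw [eq_top_iff]
      intro w _
      refine ⟨∑ m, (- w m) • D.V x m (X j0 ^ d m), ?_⟩
      rw [map_sum]
      funext m'
      rw [Finset.sum_apply]
      have h1 : ∀ m, φ ((- w m) • D.V x m (X j0 ^ d m)) m' = if m = m' then w m else 0 := by
        intro m
        rw [map_smul, Pi.smul_apply, smul_eq_mul]
        have h2 : φ (D.V x m (X j0 ^ d m)) m' = if m = m' then - x j0 ^ d m else 0 :=
          grad_U D x h0 m m' j0
        rw [h2, hj0, one_pow]
        split_ifs
        · ring
        · ring
      rw [Finset.sum_congr rfl fun m _ => h1 m, Finset.sum_ite_eq' Finset.univ m',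
        if_pos (Finset.mem_univ m')]
    have h1 := LinearMap.finrank_range_add_finrank_ker φ
    rw [hr, hk, finrank_top, Module.finrank_fin_fun, Module.finrank_fin_fun] at h1
    omega
  · apply le_antisymm
    · rw [Submodule.span_le]
      rintro v ((rfl | ⟨p, q, rfl⟩) | ⟨A, i, hA, rfl⟩)
      · exact grad_x D v h0
      · exact grad_WT D x h0 p q
      · exact fun m => grad_mulT D x h0 hA (hom_lf x j0 i) (eval_lf x hj0 i) m
    · intro v hv
      set T := Submodule.span L ({x} ∪ {u | ∃ p q, u = WT D x p q} ∪
        {u | ∃ (A : TP L n c) (i : Fin (n + 1)), Adm d A ∧ u = VT D x (mulT A (lf x j0 i))})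
        with hT
      -- forms which vanish at `x`
      have hf : ∀ (m : Fin c) (G : MvPolynomial (Fin (n + 1)) L), G.IsHomogeneous (d m) →
          eval x G = 0 → D.V x m G ∈ T := by
        intro m G hG hGx
        obtain ⟨A, hA, hA'⟩ := dec x (j0 := j0) (d m) hG
        rw [hGx, C_0, zero_mul, add_zero] at hA'
        rw [hA', map_sum]
        refine Submodule.sum_mem _ fun i _ => Submodule.subset_span (Or.inr
          ⟨Pi.single m (A i), i, fun m' I hI => ?_, ?_⟩)
        · by_cases h : m' = m
          · subst h
            rw [Pi.single_eq_same] at hI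
            exact hA i I hI
          · rw [Pi.single_eq_of_ne h, coeff_zero] at hI
            exact absurd rfl hI
        · rw [VT_apply, Finset.sum_eq_single m]
          · unfold mulT
            rw [Pi.single_eq_same]
          · intro m' _ hm'
            unfold mulT
            rw [Pi.single_eq_of_ne hm', zero_mul, map_zero]
          · intro h; exact absurd (Finset.mem_univ m) h
      -- `v = ∑ p, v p W(p, j0) - V(∂_v F X_j0)`
      have h1 : v = ∑ p, v p • WT D x p j0 -
          ∑ m, D.V x m (∑ p, C (v p) * (X j0 * pderiv p (D.F m))) := by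
        have h2 : ∑ p, v p • WT D x p j0 = v +
            ∑ m, D.V x m (∑ p, C (v p) * (X j0 * pderiv p (D.F m))) := by
          have h3 : ∀ p, v p • WT D x p j0 = v p • Pi.single p (1 : L) +
              ∑ m, D.V x m (C (v p) * (X j0 * pderiv p (D.F m))) := by
            intro p
            unfold WT
            rw [hj0, one_smul, smul_add, VT_apply, Finset.smul_sum]
            congr 1
            refine Finset.sum_congr rfl fun m _ => ?_
            rw [← smul_eq_C_mul, map_smul]
          rw [Finset.sum_congr rfl fun p _ => h3 p, Finset.sum_add_distrib]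
          congr 1
          · funext q
            rw [Finset.sum_apply, Finset.sum_eq_single q]
            · rw [Pi.smul_apply, Pi.single_eq_same, smul_eq_mul, mul_one]
            · intro b _ hb
              rw [Pi.smul_apply, Pi.single_eq_of_ne (Ne.symm hb), smul_zero]
            · intro h; exact absurd (Finset.mem_univ q) h
          · rw [Finset.sum_comm]
            refine Finset.sum_congr rfl fun m _ => ?_
            rw [map_sum]
        rw [h2, add_sub_cancel_right]
      rw [h1]
      refine Submodule.sub_mem _ (Submodule.sum_mem _ fun p _ => Submodule.smul_mem _ _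
        (Submodule.subset_span (Or.inl (Or.inr ⟨p, j0, rfl⟩))))
        (Submodule.sum_mem _ fun m _ => hf m _ ?_ ?_)
      · refine IsHomogeneous.sum _ _ _ fun p _ => ?_
        have h4 := (isHomogeneous_C (Fin (n + 1)) (v p)).mul (hom_XF' D m p j0)
        rwa [zero_add] at h4
      · rw [map_sum]
        have h5 : ∑ p, eval x (C (v p) * (X j0 * pderiv p (D.F m))) =
            ∑ p, eval x (pderiv p (D.F m)) * v p := by
          refine Finset.sum_congr rfl fun p _ => ?_
          rw [map_mul, map_mul, eval_C, eval_X, hj0]
          ring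
        rw [h5]
        exact hv m

end Pool.Agent.T2.H26
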