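import Pool.Agent.Lib.MP_c7af3c_ag.T2.Iface
import Pool.Agent.Lib.MP_c7af3c_ag.T2.H19.Blk

/-!
# MP_c7af3c_ag, project T2: row TAUB
The contracted determinant of one block is, up to sign, `x (i a0)` times the determinant of the
block of the forms `X_i - (x_i / x_(i a0)) X_(i a0)`.
-/

set_option autoImplicit false

namespace Pool.Agent.T2.H26

open MvPolynomial Pool.Agent.Gen Pool.Agent.Sharp Pool.Agent.Edge Pool.Agent.T2

section alt

variable {Ω V : Type} [Field Ω] [AddCommGroup V] [Module Ω V] {r : ℕ}

/-- multiples of one entry may be subtracted from the other entries -/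
theorem alt_inv {ι M : Type} [DecidableEq ι] [AddCommGroup M] [Module Ω M]
    (Ψ : M [⋀^ι]→ₗ[Ω] Ω) (w : ι → M) (a0 : ι) (t : ι → Ω) (s : Finset ι) (hs : a0 ∉ s) :
    Ψ (fun a => if a ∈ s then w a - t a • w a0 else w a) = Ψ w := by
  induction s using Finset.induction_on with
  | empty => simp
  | insert b s hb ih =>
    have hs0 : a0 ∉ s := fun h => hs (Finset.mem_insert_of_mem h)
    have hb0 : b ≠ a0 := fun h => hs (h ▸ Finset.mem_insert_self b s)
    set w' : ι → M := fun a => if a ∈ s then w a - t a • w a0 else w a with hw'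
    have h1 : (fun a => if a ∈ insert b s then w a - t a • w a0 else w a) =
        Function.update w' b (w b - t b • w a0) := by
      funext a
      by_cases h : a = b
      · subst h
        rw [Function.update_self, if_pos (Finset.mem_insert_self a s)]
      · rw [Function.update_of_ne h]
        simp only [hw', Finset.mem_insert, h, false_or]
    have h2 : Function.update w' b (w b) = w' := by
      funext a
      by_cases h : a = b
      · subst h
        rw [Function.update_self]
        simp only [hw', if_neg hb]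
      · rw [Function.update_of_ne h]
    have h3 : Ψ (Function.update w' b (w a0)) = 0 := by
      refine Ψ.map_eq_zero_of_eq _ (i := b) (j := a0) ?_ hb0
      rw [Function.update_self, Function.update_of_ne (Ne.symm hb0)]
      simp only [hw', if_neg hs0]
    rw [h1, Ψ.map_update_sub, Ψ.map_update_smul, h3, smul_zero, sub_zero, h2]
    exact ih hs0

/-- the form `c ∧ ω` on `V × Ω` -/
noncomputable def psi (ω : V [⋀^Fin r]→ₗ[Ω] Ω) : (V × Ω) [⋀^Fin (r + 1)]→ₗ[Ω] Ω :=
  AlternatingMap.alternatizeUncurryFin
    ((LinearMap.toSpanSingleton Ω _ (ω.compLinearMap (LinearMap.fst Ω V Ω))).comp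
      (LinearMap.snd Ω V Ω))

theorem psi_apply (ω : V [⋀^Fin r]→ₗ[Ω] Ω) (w : Fin (r + 1) → V × Ω) :
    psi ω w = ∑ a : Fin (r + 1), (-1) ^ (a : ℕ) * (w a).2 *
      ω fun b => (w (a.succAbove b)).1 := by
  unfold psi
  rw [AlternatingMap.alternatizeUncurryFin_apply]
  refine Finset.sum_congr rfl fun a _ => ?_
  rw [LinearMap.comp_apply, LinearMap.toSpanSingleton_apply, AlternatingMap.smul_apply,
    AlternatingMap.compLinearMap_apply, smul_eq_mul, zsmul_eq_mul, mul_assoc]
  push_cast
  rfl

theorem contr (ω : V [⋀^Fin r]→ₗ[Ω] Ω) (c : Fin (r + 1) → Ω) (v : Fin (r + 1) → V)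
    (a0 : Fin (r + 1)) (h : c a0 ≠ 0) :
    ∑ a : Fin (r + 1), (-1) ^ (a : ℕ) * c a * ω (fun b => v (a.succAbove b)) =
      (-1) ^ (a0 : ℕ) * c a0 *
        ω fun b => v (a0.succAbove b) - (c (a0.succAbove b) / c a0) • v a0 := by
  classical
  have h1 := alt_inv (psi ω) (fun a => (v a, c a)) a0 (fun a => c a / c a0)
    (Finset.univ.erase a0) (Finset.notMem_erase a0 _)
  rw [psi_apply, psi_apply] at h1
  simp only [] at h1
  rw [← h1, Finset.sum_eq_single a0]
  · rw [if_neg (Finset.notMem_erase a0 _)]
    congr 2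
    funext b
    rw [if_pos (Finset.mem_erase.2 ⟨Fin.succAbove_ne a0 b, Finset.mem_univ _⟩)]
    rfl
  · intro a _ ha
    rw [if_pos (Finset.mem_erase.2 ⟨ha, Finset.mem_univ _⟩)]
    have h2 : ((v a, c a) - (c a / c a0) • (v a0, c a0)).2 = 0 := by
      rw [Prod.snd_sub, Prod.smul_snd, smul_eq_mul, div_mul_cancel₀ _ h, sub_self]
    rw [h2, mul_zero, zero_mul]
  · intro h; exact absurd (Finset.mem_univ _) h

end alt

section

variable {Ω : Type} [Field Ω] [CharZero Ω] {k : Subfield Ω} {Γ : Type}
  [LinearOrderedCommGroupWithZero Γ] {S : Sizes Ω k Γ} {D : D6 Ω} {x : Fin (4 + 1) → Ω}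
  {j0 : Fin (4 + 1)}

/-- the coefficients of a form over `k` are bounded by a small function -/
theorem small_poly (S : Sizes Ω k Γ) {σ : Type} (G : MvPolynomial σ Ω)
    (hG : ∀ I, coeff I G ∈ k) : ∃ g : S.V → Γ, S.Small g ∧ (∀ p, 1 ≤ g p) ∧
      ∀ p, T2.G.CB (S.v p) G (g p) := by
  classical
  refine ⟨fun p => ∏ I ∈ G.support, S.sz (coeff I G) p,
    Sizes.Small.prod _ fun I _ => S.small_sz (hG I),
    fun p => Finset.one_le_prod' fun I _ => S.one_le_sz _ p, fun p I => ?_⟩
  by_cases hI : I ∈ G.support
  · exact (S.le_sz _ p).trans (Finset.single_le_prod' (f := fun I => S.sz (coeff I G) p)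
      (fun I _ => S.one_le_sz _ p) hI)
  · rw [notMem_support_iff.1 hI, map_zero]
    exact zero_le

/-- the data of a bounded column -/
theorem bc_data (h : Sit S D x j0) {u : Fin (4 + 1) → Ω} (hu : Bc D x k u) :
    ∃ (E : Matrix (Fin (4 + 1)) (Fin (4 + 1)) Ω) (G : MvPolynomial (Fin (4 + 1)) Ω)
      (g : S.V → Γ), S.Small g ∧ G.IsHomogeneous 6 ∧ (∀ p a b, S.v p (E a b) ≤ g p) ∧
      (∀ p I, S.v p (coeff I G) ≤ g p) ∧ u = E.mulVec x + D.V x 0 G := by
  classical
  rcases hu with ⟨a, b, rfl⟩ | ⟨G, hG, hx, rfl⟩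
  · refine ⟨Matrix.of fun p q => if p = a ∧ q = b then 1 else 0,
      X b * pderiv a (D.F 0), S.MF D, h.small_MF, hom_XF' D 0 a b, fun p i j => ?_,
      fun p I => T2.G.CB_XF (S.CB_F D p 0) a b I, ?_⟩
    · rw [Matrix.of_apply]
      split_ifs
      · rw [map_one]; exact S.one_le_MF D p
      · rw [map_zero]; exact zero_le
    · unfold WT
      rw [H19.VT_one]
      congr 1
      funext p
      rw [Pi.smul_apply, smul_eq_mul]
      have h1 : ∀ q, (Matrix.of fun p q => if p = a ∧ q = b then (1 : Ω) else 0) p q * x q =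
          if q = b then (if p = a then x b else 0) else 0 := by
        intro q
        rw [Matrix.of_apply]
        by_cases hp : p = a
        · by_cases hq : q = b
          · rw [if_pos ⟨hp, hq⟩, if_pos hq, if_pos hp, hq, one_mul]
          · rw [if_neg (fun h => hq h.2), if_neg hq, zero_mul]
        · rw [if_neg (fun h => hp h.1), zero_mul, if_neg hp]
          split_ifs <;> rfl
      have h2 : ((Matrix.of fun p q => if p = a ∧ q = b then (1 : Ω) else 0).mulVec x) p =
          ∑ q, (Matrix.of fun p q => if p = a ∧ q = b then (1 : Ω) else 0) p q * x q := rfl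
      rw [h2, Finset.sum_congr rfl fun q _ => h1 q, Finset.sum_ite_eq' Finset.univ b,
        if_pos (Finset.mem_univ b)]
      by_cases hp : p = a
      · subst hp; rw [Pi.single_eq_same, if_pos rfl, mul_one]
      · rw [Pi.single_eq_of_ne hp, if_neg hp, mul_zero]
  · obtain ⟨g, hg, hg1, hg2⟩ := small_poly S G hG.2
    refine ⟨0, G, g, hg, hG.1, fun p i j => ?_, hg2, ?_⟩
    · rw [Matrix.zero_apply, map_zero]; exact zero_le
    · rw [Matrix.zero_mulVec, zero_add]

end

theorem taub : TaubStatement := by
  classical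
  intro loc Ω _ _ k Γ _ S D x j0 h s r ε η hη A hA i
  -- the data of the columns `η`
  choose E G g hg hGh hE hGb hηE using fun a => bc_data h (hη a)
  obtain ⟨gA, hgA, hgA1, hgA2⟩ := small_poly S A hA.2
  have h0 : eval x (D.F 0) = 0 := h.h0 0
  have hsmall : S.Small fun p => S.M p ^ 4 * ((∏ a, g a p) * ∏ _b : Fin r, gA p) :=
    (S.small_M.pow 4).mul ((Sizes.Small.prod Finset.univ fun a _ => hg a).mul
      (Sizes.Small.prod Finset.univ fun _ _ => hgA))
  refine (hsmall.mono fun p => ?_).mem
  by_cases hz : ∀ a, x (i a) = 0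
  · have h1 : tauB D x j0 ε η A i = 0 := by
      unfold tauB
      refine Finset.sum_eq_zero fun a _ => ?_
      rw [hz a, mul_zero, zero_mul]
    rw [h1, map_zero]
    exact zero_le
  · -- a largest coordinate
    obtain ⟨a0, -, ha0⟩ := Finset.exists_max_image Finset.univ (fun a => S.v p (x (i a)))
      Finset.univ_nonempty
    have hx0 : x (i a0) ≠ 0 := by
      intro h1
      apply hz
      intro a
      have h2 := ha0 a (Finset.mem_univ a)
      rw [h1, map_zero] at h2
      exact (map_eq_zero (S.v p)).1 (le_antisymm h2 zero_le)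
    have h1 : tauB D x j0 ε η A i = (-1) ^ (a0 : ℕ) * x (i a0) *
        dt D x j0 ε η fun b => D.V x 0 (A * (X (i (a0.succAbove b)) -
          C (x (i (a0.succAbove b)) / x (i a0)) * X (i a0))) := by
      have h2 := contr (H19.om D x j0 ε η) (fun a => x (i a))
        (fun a => D.V x 0 (A * lf x j0 (i a))) a0 hx0
      have h3 : ∀ b, D.V x 0 (A * lf x j0 (i (a0.succAbove b))) -
          (x (i (a0.succAbove b)) / x (i a0)) • D.V x 0 (A * lf x j0 (i a0)) =
          D.V x 0 (A * (X (i (a0.succAbove b)) -
            C (x (i (a0.succAbove b)) / x (i a0)) * X (i a0))) := by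
        intro b
        rw [← map_smul, ← map_sub, smul_eq_C_mul]
        congr 1
        unfold lf
        have h4 : (C (x (i (a0.succAbove b))) : MvPolynomial (Fin (4 + 1)) Ω) =
            C (x (i (a0.succAbove b)) / x (i a0)) * C (x (i a0)) := by
          rw [← C_mul, div_mul_cancel₀ _ hx0]
        rw [h4]
        ring
      unfold tauB
      simp only [H19.om_apply] at h2
      rw [h2]
      congr 2
      funext b
      exact h3 b
    rw [h1, map_mul, map_mul, map_pow, Valuation.map_neg, map_one, one_pow, one_mul, mul_comm]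
    set w : Fin r → Fin (4 + 1) → Ω := fun b => D.V x 0 (A * (X (i (a0.succAbove b)) -
      C (x (i (a0.succAbove b)) / x (i a0)) * X (i a0))) with hw
    have hlin : ∀ b : Fin r, (X (i (a0.succAbove b)) -
        C (x (i (a0.succAbove b)) / x (i a0)) * X (i a0) :
          MvPolynomial (Fin (4 + 1)) Ω).IsHomogeneous 1 := by
      intro b
      have h5 := (isHomogeneous_C (Fin (4 + 1)) (x (i (a0.succAbove b)) / x (i a0))).mul
        (isHomogeneous_X Ω (i a0))
      rw [zero_add] at h5
      exact (isHomogeneous_X Ω _).sub h5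
    have hlinx : ∀ b : Fin r, eval x (X (i (a0.succAbove b)) -
        C (x (i (a0.succAbove b)) / x (i a0)) * X (i a0)) = 0 := by
      intro b
      rw [map_sub, map_mul, eval_X, eval_C, eval_X, div_mul_cancel₀ _ hx0, sub_self]
    have hloc := loc Ω Γ D x j0 h.hj0 h0 (S.v p) (S.M p) (S.one_le p)
      (fun I hI f hf => h.hdel p 0 I hI f hf) s r ε
      (Sum.elim E fun _ => 0)
      (Sum.elim G fun b => A * (X (i (a0.succAbove b)) -
        C (x (i (a0.succAbove b)) / x (i a0)) * X (i a0)))
      (Sum.elim (fun a => g a p) fun _ => gA p) η w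
      (by
        rintro (a | b)
        · exact hGh a
        · exact hA.1.mul (hlin b))
      (by
        rintro (a | b) q q'
        · exact hE a p q q'
        · change S.v p ((0 : Matrix (Fin (4 + 1)) (Fin (4 + 1)) Ω) q q') ≤ _
          rw [Matrix.zero_apply, map_zero]
          exact zero_le)
      (by
        rintro (a | b) I
        · exact hGb a p I
        · have h6 : T2.G.CB (S.v p) (X (i (a0.succAbove b)) -
              C (x (i (a0.succAbove b)) / x (i a0)) * X (i a0) :
                MvPolynomial (Fin (4 + 1)) Ω) 1 := by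
            refine T2.G.CB.sub _ (T2.G.CB_X _ _) ((T2.G.CB_CX _ _ _).mono _ ?_)
            rw [map_div₀]
            exact div_le_one_of_le₀ (ha0 _ (Finset.mem_univ _)) zero_le
          have h7 := (hgA2 p).mul _ h6 I
          rwa [mul_one] at h7)
      (by
        rintro (a | b)
        · exact hηE a
        · change w b = (0 : Matrix (Fin (4 + 1)) (Fin (4 + 1)) Ω).mulVec x + _
          rw [Matrix.zero_mulVec, zero_add]
          rfl)
      (by
        rintro (a | b)
        · exact H19.gr_Bc D x h0 (hη a)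
        · refine H19.gr_V D x h0 (hA.1.mul (hlin b)) ?_
          rw [map_mul, hlinx, mul_zero])
      (i a0)
    rw [Fintype.prod_sum_type] at hloc
    exact hloc

end Pool.Agent.T2.H26
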